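import Pool.Agent.Y267.MX.Defs

/-! MX-G: lower bound for the maximal function of the core indicator in `ℝ^{m+1}`. -/

open MeasureTheory Set Filter Topology
open scoped ENNReal NNReal

namespace Pool.Agent.Y486.MX

open Pool.Agent.Y267.MX

lemma lint_even {f : ℝ → ℝ≥0∞} (hf : ∀ x, f (-x) = f x) {r : ℝ} (hr : 0 ≤ r) :
    ∫⁻ x in Icc (-r) r, f x = 2 * ∫⁻ x in Icc 0 r, f x := by
  have h1 : ∫⁻ x in Icc (-r) r, f x = (∫⁻ x in Icc (-r) 0, f x) + ∫⁻ x in Ioc 0 r, f x := by
    rw [← Icc_union_Ioc_eq_Icc (by linarith : -r ≤ 0) hr]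
    apply lintegral_union measurableSet_Ioc
    rw [Set.disjoint_left]
    intro x hx hx2
    exact absurd hx2.1 (not_lt.mpr hx.2)
  have h2 : ∫⁻ x in Icc (-r) 0, f x = ∫⁻ x in Icc 0 r, f x := by
    have hm : MeasurePreserving (fun x : ℝ => -x) volume volume :=
      Measure.measurePreserving_neg volume
    have he : MeasurableEmbedding (fun x : ℝ => -x) := (Homeomorph.neg ℝ).measurableEmbedding
    have := hm.setLIntegral_comp_preimage_emb he f (Icc 0 r)
    rw [← this]
    have hset : (fun x : ℝ => -x) ⁻¹' Icc 0 r = Icc (-r) 0 := by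
      ext x; simp only [mem_preimage, mem_Icc]; constructor <;> rintro ⟨a, b⟩ <;> constructor <;> linarith
    rw [hset]
    simp [hf]
  have h3 : ∫⁻ x in Ioc 0 r, f x = ∫⁻ x in Icc 0 r, f x :=
    setLIntegral_congr Ioc_ae_eq_Icc
  rw [h1, h2, h3, two_mul]

/-- a product set: first coordinate in `S`, the other coordinates in `T` -/
def box {m : ℕ} (S : Set ℝ) (T : Set (Fin m → ℝ)) : Set (Fin (m + 1) → ℝ) :=
  {x | x 0 ∈ S ∧ (fun i : Fin m => x i.succ) ∈ T}

lemma measurableSet_box {m : ℕ} {S : Set ℝ} {T : Set (Fin m → ℝ)} (hS : MeasurableSet S)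
    (hT : MeasurableSet T) : MeasurableSet (box S T) := by
  apply MeasurableSet.inter
  · exact (measurable_pi_apply 0) hS
  · exact (measurable_pi_iff.2 fun i => measurable_pi_apply i.succ) hT

lemma lint_box {m : ℕ} {S : Set ℝ} {T : Set (Fin m → ℝ)} (hS : MeasurableSet S)
    (hT : MeasurableSet T) {F : ℝ → ℝ≥0∞} (hF : Measurable F) :
    ∫⁻ x in box S T, F (x 0) = volume T * ∫⁻ y in S, F y := by
  rw [← lintegral_indicator (measurableSet_box hS hT)]
  have hmp := volume_preserving_piFinSuccAbove (fun _ : Fin (m + 1) => ℝ) 0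
  have h1 : ∀ x : Fin (m + 1) → ℝ, (box S T).indicator (fun x => F (x 0)) x =
      (fun z : ℝ × (Fin m → ℝ) => S.indicator F z.1 * T.indicator 1 z.2)
        (MeasurableEquiv.piFinSuccAbove (fun _ : Fin (m + 1) => ℝ) 0 x) := by
    intro x
    have e1 : (MeasurableEquiv.piFinSuccAbove (fun _ : Fin (m + 1) => ℝ) 0 x).1 = x 0 := rfl
    have e2 : (MeasurableEquiv.piFinSuccAbove (fun _ : Fin (m + 1) => ℝ) 0 x).2 =
        fun i : Fin m => x i.succ := by
      ext i
      rfl
    simp only [e1, e2]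
    by_cases hx : x ∈ box S T
    · rw [indicator_of_mem hx, indicator_of_mem hx.1, indicator_of_mem hx.2, Pi.one_apply, mul_one]
    · rw [indicator_of_notMem hx]
      by_cases h0 : x 0 ∈ S
      · have : (fun i : Fin m => x i.succ) ∉ T := fun h => hx ⟨h0, h⟩
        rw [indicator_of_notMem this, mul_zero]
      · rw [indicator_of_notMem h0, zero_mul]
  rw [lintegral_congr h1]
  refine (hmp.lintegral_comp_emb (MeasurableEquiv.measurableEmbedding _)
    (fun z : ℝ × (Fin m → ℝ) => S.indicator F z.1 * T.indicator 1 z.2)).trans ?_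
  have h2 := lintegral_prod_mul (μ := (volume : Measure ℝ)) (ν := (volume : Measure (Fin m → ℝ)))
    (f := S.indicator F) (g := T.indicator 1) (hF.indicator hS).aemeasurable
    (measurable_one.indicator hT).aemeasurable
  have h3 : (∫⁻ a : ℝ × (Fin m → ℝ), S.indicator F a.1 * T.indicator 1 a.2) =
      (∫⁻ x, S.indicator F x) * ∫⁻ y : Fin m → ℝ, T.indicator 1 y := h2
  rw [lintegral_indicator hS, lintegral_indicator_one hT] at h3
  rw [mul_comm]
  exact h3

lemma vol_cube (m : ℕ) (c : Fin m → ℝ) {r : ℝ} (hr : 0 ≤ r) :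
    volume (Metric.closedBall c r) = ENNReal.ofReal ((2 * r) ^ m) := by
  rw [Real.volume_pi_closedBall c hr, Fintype.card_fin]

lemma mem_cube {m : ℕ} {c x : Fin m → ℝ} {r : ℝ} (hr : 0 ≤ r) :
    x ∈ Metric.closedBall c r ↔ ∀ i, |x i - c i| ≤ r := by
  rw [Metric.mem_closedBall, dist_pi_le_iff hr]
  rfl

/-- the support of the test function -/
lemma tf_supp (m : ℕ) (L : ℝ) : {x : Fin (m + 1) → ℝ | |x 0| < Real.exp (-L) ∧
    ∀ i : Fin m, |x i.succ| ≤ 2} = box (Ioo (-Real.exp (-L)) (Real.exp (-L)))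
      (Metric.closedBall 0 2) := by
  ext x
  have h := mem_cube (c := (0 : Fin m → ℝ)) (x := fun i : Fin m => x i.succ) (r := 2)
    (by norm_num)
  simp only [Pi.zero_apply, sub_zero] at h
  change (|x 0| < Real.exp (-L) ∧ ∀ i : Fin m, |x i.succ| ≤ 2) ↔
    ((-Real.exp (-L) < x 0 ∧ x 0 < Real.exp (-L)) ∧ _)
  rw [h, abs_lt]

lemma tf_eq (m : ℕ) (L : ℝ) (x : Fin (m + 1) → ℝ) :
    tf m L x = (box (Ioo (-Real.exp (-L)) (Real.exp (-L))) (Metric.closedBall (0 : Fin m → ℝ) 2)).indicator
      1 x := by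
  unfold tf
  rw [tf_supp]

lemma meas_supp (m : ℕ) (L : ℝ) : MeasurableSet
    (box (Ioo (-Real.exp (-L)) (Real.exp (-L))) (Metric.closedBall (0 : Fin m → ℝ) 2)) :=
  measurableSet_box measurableSet_Ioo Metric.isClosed_closedBall.measurableSet

lemma tf_pow (m : ℕ) (L : ℝ) {p : ℝ} (hp : 0 < p) (x : Fin (m + 1) → ℝ) (c : ℝ≥0∞) :
    tf m L x ^ p * c = (box (Ioo (-Real.exp (-L)) (Real.exp (-L)))
      (Metric.closedBall (0 : Fin m → ℝ) 2)).indicator (fun _ => c) x := by
  rw [tf_eq]
  by_cases h : x ∈ box (Ioo (-Real.exp (-L)) (Real.exp (-L))) (Metric.closedBall (0 : Fin m → ℝ) 2)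
  · rw [indicator_of_mem h, indicator_of_mem h, Pi.one_apply, ENNReal.one_rpow, one_mul]
  · rw [indicator_of_notMem h, indicator_of_notMem h, ENNReal.zero_rpow_of_pos hp, zero_mul]

lemma measurable_wg (hA : ProfStm) {q L : ℝ} (hq : 0 < q) (hL : 1 ≤ L) : Measurable (wg q L) := by
  have hm : Measurable (hh q L) := (hA q L hq hL).2.2.2.2.2.2.2.2.2
  exact ((hm.comp measurable_norm).pow_const _).ennreal_ofReal

/-- the integral of the test function -/
lemma int_tf (hA : ProfStm) (m : ℕ) {q L : ℝ} (hq : 0 < q) (hL : 1 ≤ L) :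
    ∫⁻ x : Fin (m + 1) → ℝ, tf m L x ^ (1 + 1 / q) * wg q L (x 0) =
      ENNReal.ofReal (4 ^ m * (2 * Real.exp (-L)) * hh q L 0 ^ (-(1 / q))) := by
  have e1 := Real.exp_pos (-L)
  have hp : 0 < 1 + 1 / q := by positivity
  have h1 : ∀ x : Fin (m + 1) → ℝ, tf m L x ^ (1 + 1 / q) * wg q L (x 0) =
      (box (Ioo (-Real.exp (-L)) (Real.exp (-L))) (Metric.closedBall (0 : Fin m → ℝ) 2)).indicator
        (fun x => ENNReal.ofReal (hh q L 0 ^ (-(1 / q)))) x := by
    intro x
    rw [tf_pow m L hp]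
    by_cases h : x ∈ box (Ioo (-Real.exp (-L)) (Real.exp (-L))) (Metric.closedBall (0 : Fin m → ℝ) 2)
    · rw [indicator_of_mem h, indicator_of_mem h]
      unfold wg
      have hx : |x 0| < Real.exp (-L) := abs_lt.mpr ⟨h.1.1, h.1.2⟩
      rw [(hA q L hq hL).2.2.2.2.2.2.1 _ hx.le]
    · rw [indicator_of_notMem h, indicator_of_notMem h]
  rw [lintegral_congr h1, lintegral_indicator (meas_supp m L)]
  have h2 := lint_box (m := m) (S := Ioo (-Real.exp (-L)) (Real.exp (-L)))
    (T := Metric.closedBall (0 : Fin m → ℝ) 2) measurableSet_Ioo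
    Metric.isClosed_closedBall.measurableSet
    (F := fun _ => ENNReal.ofReal (hh q L 0 ^ (-(1 / q)))) measurable_const
  rw [h2, vol_cube m 0 (by norm_num : (0:ℝ) ≤ 2), setLIntegral_const, Real.volume_Ioo]
  have hh0 : 0 < hh q L 0 := lt_of_lt_of_le (Real.exp_pos L) (hA q L hq hL).2.2.2.2.2.2.2.1.2
  rw [← ENNReal.ofReal_mul (by positivity), ← ENNReal.ofReal_mul (by positivity)]
  congr 1
  ring

/-- the maximal function of the test function is large -/
lemma maxN_tf (m : ℕ) {L : ℝ} (x : Fin (m + 1) → ℝ) (hx0 : Real.exp (-L) ≤ |x 0|)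
    (hx1 : |x 0| ≤ 1) (hx : ∀ i : Fin m, |x i.succ| ≤ 1) :
    ENNReal.ofReal (Real.exp (-L) / |x 0|) ≤ maxN (tf m L) x := by
  have e1 := Real.exp_pos (-L)
  set r := |x 0| with hr
  have hr0 : 0 < r := lt_of_lt_of_le e1 hx0
  set c : Fin (m + 1) → ℝ := Fin.cons 0 (fun i : Fin m => x i.succ) with hc
  have hmem : x ∈ Metric.closedBall c r := by
    rw [mem_cube hr0.le]
    intro i
    refine Fin.cases ?_ ?_ i
    · simp [hc, hr]
    · intro j; simp [hc, hr0.le]
  have hsub : box (Ioo (-Real.exp (-L)) (Real.exp (-L)))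
      (Metric.closedBall (fun i : Fin m => x i.succ) r) ⊆ Metric.closedBall c r := by
    intro y hy
    rw [mem_cube hr0.le]
    intro i
    refine Fin.cases ?_ ?_ i
    · have h1 : |y 0| < Real.exp (-L) := abs_lt.mpr ⟨hy.1.1, hy.1.2⟩
      simp only [hc, Fin.cons_zero, sub_zero]
      linarith
    · intro j
      have h2 := (mem_cube hr0.le).1 hy.2 j
      simpa [hc] using h2
  have hsub2 : box (Ioo (-Real.exp (-L)) (Real.exp (-L)))
      (Metric.closedBall (fun i : Fin m => x i.succ) r) ⊆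
      box (Ioo (-Real.exp (-L)) (Real.exp (-L))) (Metric.closedBall (0 : Fin m → ℝ) 2) := by
    intro y hy
    refine ⟨hy.1, ?_⟩
    rw [mem_cube (by norm_num)]
    intro j
    have h2 := (mem_cube hr0.le).1 hy.2 j
    have h3 := hx j
    simp only [Pi.zero_apply, sub_zero] at h2 ⊢
    have h4 : |y j.succ| ≤ |y j.succ - x j.succ| + |x j.succ| := by
      have := abs_add_le (y j.succ - x j.succ) (x j.succ)
      simpa using this
    linarith
  have hmb : MeasurableSet (box (Ioo (-Real.exp (-L)) (Real.exp (-L)))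
      (Metric.closedBall (fun i : Fin m => x i.succ) r)) :=
    measurableSet_box measurableSet_Ioo Metric.isClosed_closedBall.measurableSet
  have hint : ENNReal.ofReal ((2 * r) ^ m * (2 * Real.exp (-L))) ≤
      ∫⁻ y in Metric.closedBall c r, tf m L y := by
    calc ENNReal.ofReal ((2 * r) ^ m * (2 * Real.exp (-L)))
        = ∫⁻ y in box (Ioo (-Real.exp (-L)) (Real.exp (-L)))
            (Metric.closedBall (fun i : Fin m => x i.succ) r), 1 := by
          have h2 := lint_box (m := m) (S := Ioo (-Real.exp (-L)) (Real.exp (-L)))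
            (T := Metric.closedBall (fun i : Fin m => x i.succ) r) measurableSet_Ioo
            Metric.isClosed_closedBall.measurableSet (F := fun _ => 1) measurable_const
          rw [h2, vol_cube m _ hr0.le, setLIntegral_const, Real.volume_Ioo, one_mul,
            ← ENNReal.ofReal_mul (by positivity)]
          congr 1
          ring
      _ ≤ ∫⁻ y in box (Ioo (-Real.exp (-L)) (Real.exp (-L)))
            (Metric.closedBall (fun i : Fin m => x i.succ) r), tf m L y := by
          apply setLIntegral_mono' hmb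
          intro y hy
          rw [tf_eq, indicator_of_mem (hsub2 hy), Pi.one_apply]
      _ ≤ ∫⁻ y in Metric.closedBall c r, tf m L y := lintegral_mono_set hsub
  have hav : ENNReal.ofReal (Real.exp (-L) / r) ≤ avg (tf m L) (Metric.closedBall c r) := by
    unfold avg
    rw [vol_cube (m + 1) c hr0.le, ← ENNReal.ofReal_inv_of_pos (by positivity)]
    calc ENNReal.ofReal (Real.exp (-L) / r)
        = ENNReal.ofReal (((2 * r) ^ (m + 1))⁻¹) *
          ENNReal.ofReal ((2 * r) ^ m * (2 * Real.exp (-L))) := by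
          rw [← ENNReal.ofReal_mul (by positivity)]
          congr 1
          field_simp
          ring
      _ ≤ _ := by gcongr
  refine hav.trans ?_
  unfold maxN
  exact le_iSup_of_le (Metric.closedBall c r) (le_iSup_of_le ⟨c, r, hr0, rfl⟩
    (le_iSup_of_le hmem le_rfl))

/-- the one-variable integral -/
lemma log_log_int {T r0 C : ℝ} (hr0 : 0 < r0) (hr1 : r0 ≤ 1) (hT : 0 < T + Real.log r0)
    (hC : 0 ≤ C) :
    ∫⁻ x in Icc r0 1, ENNReal.ofReal (C * (x⁻¹ / (T + Real.log x)))
      = ENNReal.ofReal (C * (Real.log T - Real.log (T + Real.log r0))) := by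
  have hpos : ∀ x ∈ Icc r0 1, 0 < x := fun x hx => lt_of_lt_of_le hr0 hx.1
  have hden : ∀ x ∈ Icc r0 1, 0 < T + Real.log x := fun x hx => by
    have := Real.log_le_log hr0 hx.1
    linarith
  have hderiv : ∀ x ∈ Set.uIcc r0 1,
      HasDerivAt (fun x => C * Real.log (T + Real.log x))
        (C * (x⁻¹ / (T + Real.log x))) x := by
    intro x hx
    rw [Set.uIcc_of_le hr1] at hx
    have h1 := (Real.hasDerivAt_log (hpos x hx).ne').const_add T
    exact (h1.log (hden x hx).ne').const_mul _
  have hcont : ContinuousOn (fun x : ℝ => C * (x⁻¹ / (T + Real.log x))) (Icc r0 1) := by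
    apply ContinuousOn.mul continuousOn_const
    apply ContinuousOn.div
    · exact continuousOn_inv₀.mono fun x hx => (hpos x hx).ne'
    · apply ContinuousOn.add continuousOn_const
      exact Real.continuousOn_log.mono fun x hx => (hpos x hx).ne'
    · intro x hx
      exact (hden x hx).ne'
  have hint := intervalIntegral.integral_eq_sub_of_hasDerivAt hderiv
    (by apply ContinuousOn.intervalIntegrable; rwa [Set.uIcc_of_le hr1])
  rw [intervalIntegral.integral_of_le hr1, ← integral_Icc_eq_integral_Ioc] at hint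
  rw [← ofReal_integral_eq_lintegral_ofReal hcont.integrableOn_Icc]
  · rw [hint, Real.log_one, add_zero]
    congr 1
    ring
  · filter_upwards [ae_restrict_mem measurableSet_Icc] with x hx
    have := hpos x hx
    have := hden x hx
    positivity

/-- the pointwise bound -/
lemma pt_bound (hA : ProfStm) {q L r : ℝ} (hq : 0 < q) (hL : 1 ≤ L)
    (hr : Real.exp ((q + 1) * Real.log (q + 1 + L) - L) ≤ r) (hr1 : r ≤ 1) :
    2 ^ (-(1 / q)) * Real.exp (-L) ^ (1 + 1 / q) * (q + 1 + L) ^ (1 + 1 / q) *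
        (r⁻¹ / (q + 1 + L + Real.log r)) ≤
      (Real.exp (-L) / r) ^ (1 + 1 / q) * (hh q L r) ^ (-(1 / q)) := by
  have e1 := Real.exp_pos (-L)
  set T := q + 1 + L with hTdef
  have hT1 : 1 ≤ T := by linarith
  have hT0 : 0 < T := by linarith
  have hlogT : 0 ≤ Real.log T := Real.log_nonneg hT1
  have hr0 : 0 < r := lt_of_lt_of_le (Real.exp_pos _) hr
  have hEr : Real.exp (-L) ≤ r := by
    refine le_trans ?_ hr
    apply Real.exp_le_exp.mpr
    have : 0 ≤ (q + 1) * Real.log T := by positivity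
    linarith
  have htt : tt L r = r := by
    unfold tt
    rw [min_eq_right hr1, max_eq_right hEr]
  have hss : ss q L r = T + Real.log r := by
    unfold ss
    rw [htt]
  have hlog : (q + 1) * Real.log T - L ≤ Real.log r := by
    rw [Real.le_log_iff_exp_le hr0]
    exact hr
  have hs1 : 1 ≤ T + Real.log r := by
    have : 0 ≤ (q + 1) * Real.log T := by positivity
    linarith
  set s := T + Real.log r with hs
  have hs0 : 0 < s := by linarith
  -- the profile
  have hTq : 0 < T ^ (-(q + 1)) := Real.rpow_pos_of_pos hT0 _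
  have hhle : hh q L r ≤ 2 * (T ^ (-(q + 1)) * s ^ q / r) := by
    unfold hh
    rw [htt, hss]
    have h1 : Real.exp (-L) / r ^ 2 ≤ T ^ (-(q + 1)) * s ^ q / r := by
      have h2 : Real.exp (-L) / r ≤ T ^ (-(q + 1)) := by
        rw [div_le_iff₀ hr0, Real.rpow_def_of_pos hT0]
        calc Real.exp (-L) = Real.exp (Real.log T * -(q + 1)) *
              Real.exp ((q + 1) * Real.log T - L) := by
              rw [← Real.exp_add]
              congr 1
              ring
          _ ≤ Real.exp (Real.log T * -(q + 1)) * r := by gcongr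
      have h3 : 1 ≤ s ^ q := Real.one_le_rpow hs1 hq.le
      calc Real.exp (-L) / r ^ 2 = (Real.exp (-L) / r) / r := by
            field_simp
        _ ≤ T ^ (-(q + 1)) / r := by gcongr
        _ ≤ T ^ (-(q + 1)) * s ^ q / r := by
            apply div_le_div_of_nonneg_right _ hr0.le
            exact le_mul_of_one_le_right hTq.le h3
    linarith
  have hhpos : 0 < hh q L r := lt_of_lt_of_le (by positivity) ((hA q L hq hL).2.2.2.2.2.1 r)
  have hkey : (2 * (T ^ (-(q + 1)) * s ^ q / r)) ^ (-(1 / q)) ≤ (hh q L r) ^ (-(1 / q)) :=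
    Real.rpow_le_rpow_of_nonpos hhpos hhle (by
      have : 0 < 1 / q := by positivity
      linarith)
  have hsq : 0 < s ^ q := Real.rpow_pos_of_pos hs0 _
  have hval : (2 * (T ^ (-(q + 1)) * s ^ q / r)) ^ (-(1 / q)) =
      2 ^ (-(1 / q)) * (T ^ (1 + 1 / q) * s⁻¹ * r ^ (1 / q)) := by
    rw [Real.mul_rpow (by norm_num) (by positivity), Real.div_rpow (by positivity) hr0.le,
      Real.mul_rpow hTq.le hsq.le, ← Real.rpow_mul hT0.le, ← Real.rpow_mul hs0.le]
    have a1 : -(q + 1) * -(1 / q) = 1 + 1 / q := by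
      field_simp
    have a2 : q * -(1 / q) = -1 := by
      field_simp
    rw [a1, a2, Real.rpow_neg_one, Real.rpow_neg hr0.le, div_inv_eq_mul]
  calc 2 ^ (-(1 / q)) * Real.exp (-L) ^ (1 + 1 / q) * T ^ (1 + 1 / q) * (r⁻¹ / s)
      = (Real.exp (-L) / r) ^ (1 + 1 / q) *
          (2 ^ (-(1 / q)) * (T ^ (1 + 1 / q) * s⁻¹ * r ^ (1 / q))) := by
        rw [Real.div_rpow e1.le hr0.le]
        have a3 : r ^ (1 + 1 / q) = r * r ^ (1 / q) := by
          rw [Real.rpow_add hr0, Real.rpow_one]
        rw [a3]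
        have a4 : 0 < r ^ (1 / q) := Real.rpow_pos_of_pos hr0 _
        field_simp
    _ ≤ _ := by
        rw [← hval]
        gcongr

/-- the integral of the maximal function is large -/
lemma int_max (hA : ProfStm) (m : ℕ) {q L : ℝ} (hq : 0 < q) (hL : 1 ≤ L)
    (hbig : (q + 1) + (q + 1) * Real.log (q + 1 + L) ≤ Real.sqrt (q + 1 + L)) :
    ENNReal.ofReal (2 ^ m * 2 ^ (-(1 / q)) * Real.exp (-L) ^ (1 + 1 / q) *
        (q + 1 + L) ^ (1 + 1 / q) * Real.log (q + 1 + L)) ≤
      ∫⁻ x : Fin (m + 1) → ℝ, maxN (tf m L) x ^ (1 + 1 / q) * wg q L (x 0) := by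
  have e1 := Real.exp_pos (-L)
  set T := q + 1 + L with hTdef
  have hT1 : 1 ≤ T := by linarith
  have hT0 : 0 < T := by linarith
  have hlogT : 0 ≤ Real.log T := Real.log_nonneg hT1
  have hsqT : Real.sqrt T ≤ T := by
    rw [Real.sqrt_le_left hT0.le]
    nlinarith
  set r0 := Real.exp ((q + 1) * Real.log T - L) with hr0def
  have hr0 : 0 < r0 := Real.exp_pos _
  have hr01 : r0 ≤ 1 := by
    rw [hr0def, Real.exp_le_one_iff]
    linarith
  have hEr0 : Real.exp (-L) ≤ r0 := by
    apply Real.exp_le_exp.mpr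
    have : 0 ≤ (q + 1) * Real.log T := by positivity
    linarith
  have hlogr0 : Real.log r0 = (q + 1) * Real.log T - L := Real.log_exp _
  have hTr : T + Real.log r0 = (q + 1) + (q + 1) * Real.log T := by
    rw [hlogr0, hTdef]; ring
  have hTr0 : 0 < T + Real.log r0 := by
    rw [hTr]; positivity
  set C := 2 ^ (-(1 / q)) * Real.exp (-L) ^ (1 + 1 / q) * T ^ (1 + 1 / q) with hC
  have hC0 : 0 ≤ C := by positivity
  set F : ℝ → ℝ≥0∞ := (Icc r0 1).indicator
    (fun y => ENNReal.ofReal (C * (y⁻¹ / (T + Real.log y)))) with hF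
  have hFm : Measurable F := by
    apply Measurable.indicator _ measurableSet_Icc
    apply ENNReal.measurable_ofReal.comp
    exact (measurable_inv.div (measurable_const.add Real.measurable_log)).const_mul _
  have hG : Measurable (fun y : ℝ => F |y|) := hFm.comp measurable_norm
  have hlow : ∫⁻ y in Icc (-1 : ℝ) 1, F |y| ≥ ENNReal.ofReal (C * Real.log T) := by
    rw [lint_even (f := fun y => F |y|) (fun y => by simp) zero_le_one]
    have h1 : ∫⁻ y in Icc (0 : ℝ) 1, F |y| ≥ ENNReal.ofReal (C * (Real.log T / 2)) := by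
      calc ENNReal.ofReal (C * (Real.log T / 2))
          ≤ ENNReal.ofReal (C * (Real.log T - Real.log (T + Real.log r0))) := by
            apply ENNReal.ofReal_le_ofReal
            have h2 : Real.log (T + Real.log r0) ≤ Real.log T / 2 := by
              rw [← Real.log_sqrt hT0.le, hTr]
              exact Real.log_le_log (by positivity) hbig
            gcongr
            linarith
        _ = ∫⁻ x in Icc r0 1, ENNReal.ofReal (C * (x⁻¹ / (T + Real.log x))) :=
            (log_log_int hr0 hr01 hTr0 hC0).symm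
        _ ≤ ∫⁻ x in Icc r0 1, F |x| := by
            apply setLIntegral_mono' measurableSet_Icc
            intro x hx
            rw [abs_of_pos (lt_of_lt_of_le hr0 hx.1), hF, indicator_of_mem hx]
        _ ≤ ∫⁻ y in Icc (0 : ℝ) 1, F |y| := lintegral_mono_set (Icc_subset_Icc hr0.le le_rfl)
    calc ENNReal.ofReal (C * Real.log T) = 2 * ENNReal.ofReal (C * (Real.log T / 2)) := by
          rw [show (2 : ℝ≥0∞) = ENNReal.ofReal 2 by norm_num, ← ENNReal.ofReal_mul (by norm_num)]
          congr 1; ring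
      _ ≤ 2 * ∫⁻ y in Icc (0 : ℝ) 1, F |y| := by gcongr
  have hbox := lint_box (m := m) (S := Icc (-1 : ℝ) 1)
    (T := Metric.closedBall (0 : Fin m → ℝ) 1) measurableSet_Icc
    Metric.isClosed_closedBall.measurableSet (F := fun y => F |y|) hG
  rw [vol_cube m 0 zero_le_one] at hbox
  calc ENNReal.ofReal (2 ^ m * 2 ^ (-(1 / q)) * Real.exp (-L) ^ (1 + 1 / q) *
        T ^ (1 + 1 / q) * Real.log T)
      = ENNReal.ofReal ((2 * 1) ^ m) * ENNReal.ofReal (C * Real.log T) := by
        rw [← ENNReal.ofReal_mul (by positivity)]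
        congr 1
        rw [hC]
        ring
    _ ≤ ENNReal.ofReal ((2 * 1) ^ m) * ∫⁻ y in Icc (-1 : ℝ) 1, F |y| := by gcongr
    _ = ∫⁻ x in box (Icc (-1 : ℝ) 1) (Metric.closedBall (0 : Fin m → ℝ) 1), F |x 0| := hbox.symm
    _ ≤ ∫⁻ x in box (Icc (-1 : ℝ) 1) (Metric.closedBall (0 : Fin m → ℝ) 1),
          maxN (tf m L) x ^ (1 + 1 / q) * wg q L (x 0) := by
        apply setLIntegral_mono' (measurableSet_box measurableSet_Icc
          Metric.isClosed_closedBall.measurableSet)
        intro x hx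
        by_cases hx0 : |x 0| ∈ Icc r0 1
        · rw [hF, indicator_of_mem hx0]
          have hxi : ∀ i : Fin m, |x i.succ| ≤ 1 := by
            intro i
            have := (mem_cube zero_le_one).1 hx.2 i
            simpa using this
          have h1 := maxN_tf m x (hEr0.trans hx0.1) hx0.2 hxi
          have hxpos : 0 < |x 0| := lt_of_lt_of_le hr0 hx0.1
          calc ENNReal.ofReal (C * (|x 0|⁻¹ / (T + Real.log |x 0|)))
              ≤ ENNReal.ofReal ((Real.exp (-L) / |x 0|) ^ (1 + 1 / q) *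
                  (hh q L |x 0|) ^ (-(1 / q))) :=
                ENNReal.ofReal_le_ofReal (pt_bound hA hq hL hx0.1 hx0.2)
            _ = ENNReal.ofReal (Real.exp (-L) / |x 0|) ^ (1 + 1 / q) * wg q L (x 0) := by
                unfold wg
                rw [ENNReal.ofReal_mul (by positivity),
                  ENNReal.ofReal_rpow_of_nonneg (by positivity) (by positivity)]
            _ ≤ _ := by gcongr
        · rw [hF, indicator_of_notMem hx0]
          exact zero_le
    _ ≤ _ := setLIntegral_le_lintegral _ _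

theorem lowG (hA : ProfStm) : LowStm := by
  intro m q L hq hL
  have e1 := Real.exp_pos (-L)
  have hh0 := (hA q L hq hL).2.2.2.2.2.2.2.1.2
  have hh0' : 0 < hh q L 0 := lt_of_lt_of_le (Real.exp_pos L) hh0
  refine ⟨?_, ?_, int_max hA m hq hL⟩
  · rw [int_tf hA m hq hL]
    apply ENNReal.ofReal_le_ofReal
    have h1 : hh q L 0 ^ (-(1 / q)) ≤ Real.exp (-L) ^ (1 / q) := by
      calc hh q L 0 ^ (-(1 / q)) ≤ (Real.exp L) ^ (-(1 / q)) :=
            Real.rpow_le_rpow_of_nonpos (Real.exp_pos L) hh0 (by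
              have : 0 < 1 / q := by positivity
              linarith)
        _ = Real.exp (-L) ^ (1 / q) := by
            rw [← Real.exp_mul, ← Real.exp_mul]
            congr 1; ring
    calc 4 ^ m * (2 * Real.exp (-L)) * hh q L 0 ^ (-(1 / q))
        ≤ 4 ^ m * (2 * Real.exp (-L)) * Real.exp (-L) ^ (1 / q) := by gcongr
      _ = 2 * 4 ^ m * Real.exp (-L) * Real.exp (-L) ^ (1 / q) := by ring
  · rw [int_tf hA m hq hL, ENNReal.ofReal_pos]
    have := Real.rpow_pos_of_pos hh0' (-(1 / q))
    positivity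

end Pool.Agent.Y486.MX
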